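import Pool.Agent.Q187.Par.Gend
import Pool.Agent.Q56.CP.Thy
import Pool.Agent.Y154.BQ.Defs
import Pool.Agent.Y154.BQ.Lin

/-!
# Perfectness of the intersection pairing
-/

set_option autoImplicit false
set_option linter.unusedSectionVars false

open CategoryTheory AlgebraicGeometry
open scoped TensorProduct

universe u v w

namespace Q187.Par

open Module Polynomial Pool.Agent.H914 Pool.Agent.H914.VarClass Pool.Agent.H914.VarClass.Obj
  Pool.Agent.W492.BB Pool.Agent.W550.Corr Pool.Agent.TH133 Pool.Agent.W484.CH Pool.Agent.Q56.FD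
  Pool.Agent.Q56.CP

variable {k : Type u} [Field k] {𝒱 : VarClass k} {C : TheoryData.{u, v, 0} 𝒱 ℚ} {K : Type w}
  [Field K] [CharZero K] {H : WeilTheoryData.{u, v, w} C K} [hC : IsChowProj C]
  [hH : IsWeilProj H] {X Y : 𝒱.Obj}

/-- The degree of a zero-cycle, as in `Pool.Agent.Y154.BQ`. -/
abbrev HasDeg (C : TheoryData.{u, v, 0} 𝒱 ℚ) {X : 𝒱.Obj} (t : C.A X) (n : ℚ) : Prop :=
  Pool.Agent.Y154.BQ.HasDegree C t n

include H hH in
theorem hasDeg_unique {t : C.A X} {m n : ℚ} (hm : HasDeg C t m) (hn : HasDeg C t n) :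
    m = n := by
  have h1 : (m - n) • (1 : C.A X) = 0 := by
    unfold HasDeg Pool.Agent.Y154.BQ.HasDegree at hm hn
    rw [sub_smul, ← hm, ← hn, sub_self]
  exact sub_eq_zero.1 ((smul_eq_zero.1 h1).resolve_right (chow_one_ne (H := H) X))

theorem hasDeg_exists {t : C.A X} {i : ℤ} (hi : i = X.dim) (ht : t ∈ C.gr X i) :
    ∃ n : ℚ, HasDeg C t n := by
  have h1 := C.push_mem (snd X X) (C.pull_mem (fst X X) ht)
  have h2 : i + 1 * ((X.dim : ℤ) - (X.prod X).dim) = 0 := by
    rw [Obj.dim_prod, hi]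
    push_cast
    ring
  rw [h2] at h1
  exact hC.gr_zero _ _ h1

theorem hasDeg_add {t t' : C.A X} {m n : ℚ} (hm : HasDeg C t m) (hn : HasDeg C t' n) :
    HasDeg C (t + t') (m + n) := by
  unfold HasDeg Pool.Agent.Y154.BQ.HasDegree TheoryData.down TheoryData.up at *
  rw [map_add, map_add, hm, hn, add_smul]

theorem hasDeg_smul {t : C.A X} {m : ℚ} (c : ℚ) (hm : HasDeg C t m) :
    HasDeg C (c • t) (c * m) := by
  unfold HasDeg Pool.Agent.Y154.BQ.HasDegree TheoryData.down TheoryData.up at *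
  rw [map_smul, map_smul, hm, mul_smul]

/-- The trace of the class of a zero-cycle is a constant multiple of its degree. -/
theorem exists_kappa (H : WeilTheoryData.{u, v, w} C K) [hH : IsWeilProj H] (X : 𝒱.Obj) :
    ∃ κ : K, κ ≠ 0 ∧ ∀ (t : C.A X) (n : ℚ), HasDeg C t n →
    H.tr X (H.cl t) = (n : K) * κ := by
  obtain ⟨a, ha, ha1, -⟩ := exists_deg_one C X
  refine ⟨H.tr X (H.cl a), tr_pt_ne ha ha1, fun t n ht => ?_⟩
  have h1 : H.tr (X.prod X) (H.pull (fst X X) (H.cl t) * H.pull (snd X X) (H.cl a)) =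
      H.tr X (H.cl t) := by
    rw [tr_fst, ← H.cl_pull, ← H.cl_push, ha1 X, map_one, mul_one]
  have h2 : C.push (snd X X) (C.pull (fst X X) t) = n • (1 : C.A X) := ht
  rw [← h1, tr_snd, ← H.cl_pull, ← H.cl_push, h2, cl_smul, map_one, smul_mul_assoc, one_mul,
    map_smul, smul_eq_mul]

/-- The rational form of the pairing. -/
theorem exists_form (H : WeilTheoryData.{u, v, w} C K) [hH : IsWeilProj H] (X : 𝒱.Obj) (n : ℤ) :
    ∃ β : C.gr X n →ₗ[ℚ] C.gr X (X.dim - n) →ₗ[ℚ] ℚ,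
    ∀ (z : C.gr X n) (w : C.gr X (X.dim - n)), HasDeg C ((z : C.A X) * (w : C.A X)) (β z w) := by
  have h0 : ∀ (z : C.gr X n) (w : C.gr X (X.dim - n)), ∃ m : ℚ,
      HasDeg C ((z : C.A X) * (w : C.A X)) m :=
    fun z w => hasDeg_exists (i := n + (X.dim - n)) (by ring) (C.mul_mem z.2 w.2)
  choose m hm using h0
  refine ⟨LinearMap.mk₂ ℚ m ?_ ?_ ?_ ?_, fun z w => hm z w⟩
  · intro z z' w
    refine hasDeg_unique (H := H) (hm _ _) ?_
    have := hasDeg_add (hm z w) (hm z' w)
    rwa [← add_mul] at this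
  · intro c z w
    refine hasDeg_unique (H := H) (hm _ _) ?_
    have := hasDeg_smul c (hm z w)
    rwa [← smul_mul_assoc] at this
  · intro z w w'
    refine hasDeg_unique (H := H) (hm _ _) ?_
    have := hasDeg_add (hm z w) (hm z w')
    rwa [← mul_add] at this
  · intro c z w
    refine hasDeg_unique (H := H) (hm _ _) ?_
    have := hasDeg_smul c (hm z w)
    rwa [← mul_smul_comm] at this

open Pool.Agent.Y154.BQ in
include H hH in
theorem perfectIn_iff (X : 𝒱.Obj) (n : ℤ) (β : C.gr X n →ₗ[ℚ] C.gr X (X.dim - n) →ₗ[ℚ] ℚ)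
    (hβ : ∀ (z : C.gr X n) (w : C.gr X (X.dim - n)), HasDeg C ((z : C.A X) * (w : C.A X)) (β z w)) :
    PerfectIn C X n ↔ Perf β := by
  rw [← rperf_iff]
  unfold PerfectIn PerfectReal RPerf
  refine and_congr_right fun _ => and_congr_right fun _ => exists_congr fun B =>
    and_congr_right fun _ => ?_
  constructor
  · intro h a b z w
    obtain ⟨m, hm1, hm2⟩ := h a b z w
    rw [hasDeg_unique (H := H) hm1 (hβ z w)] at hm2
    exact hm2
  · intro h a b z w
    exact ⟨β z w, hβ z w, h a b z w⟩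

/-- A space of cycles without numerically trivial ones is finite-dimensional. -/
theorem finite_of_num [Module.Finite K (H.A X)] {n : ℤ} (h : numTriv H X n = ⊥) :
    Module.Finite ℚ (C.gr X n) := by
  classical
  obtain ⟨β, hβ⟩ := exists_form H X n
  obtain ⟨κ, hκ, hκt⟩ := exists_kappa H X
  obtain ⟨S, hS1, hS2, hS3⟩ :=
    exists_linearIndependent K {c | ∃ D : C.A X, D ∈ C.gr X (X.dim - n) ∧ c = H.cl D}
  have hfin : S.Finite := hS3.setFinite
  have hft := hfin.fintype
  have hD : ∀ t : S, ∃ D : C.A X, D ∈ C.gr X (X.dim - n) ∧ (t : H.A X) = H.cl D :=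
    fun t => hS1 t.2
  choose D hDg hDcl using hD
  let ψ : C.gr X n →ₗ[ℚ] (S → ℚ) := LinearMap.pi fun t => β.flip ⟨D t, hDg t⟩
  refine Module.Finite.of_injective ψ ?_
  rw [injective_iff_map_eq_zero]
  intro z hz
  have h1 : ∀ t, H.tr X (H.cl (z : C.A X) * (t : H.A X)) = 0 ∨ t ∉ S := by
    intro t
    by_cases ht : t ∈ S
    · left
      have h2 : β z ⟨D ⟨t, ht⟩, hDg _⟩ = 0 := congrFun hz ⟨t, ht⟩
      have h3 := hκt _ _ (hβ z ⟨D ⟨t, ht⟩, hDg _⟩)
      rw [h2, Rat.cast_zero, zero_mul, map_mul] at h3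
      have h4 : t = H.cl (D ⟨t, ht⟩) := hDcl ⟨t, ht⟩
      rw [h4]
      exact h3
    · exact Or.inr ht
  have h5 : ∀ x ∈ Submodule.span K S, H.tr X (H.cl (z : C.A X) * x) = 0 := by
    intro x hx
    induction hx using Submodule.span_induction with
    | mem x hx => exact (h1 x).resolve_right (not_not.2 hx)
    | zero => rw [mul_zero, map_zero]
    | add x y _ _ hx hy => rw [mul_add, map_add, hx, hy, add_zero]
    | smul c x _ hx => rw [mul_smul_comm, map_smul, hx, smul_zero]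
  have h6 : (z : C.A X) ∈ numTriv H X n := by
    refine ⟨z.2, fun w hw => ?_⟩
    rw [ch_comm C, map_mul]
    apply h5
    rw [hS2]
    exact Submodule.subset_span ⟨w, hw, rfl⟩
  rw [h, Submodule.mem_bot] at h6
  exact Subtype.ext h6

open Pool.Agent.Y154.BQ in
/-- **Perfectness of the pairing.** -/
theorem perfectIn_iff_num (H : WeilTheoryData.{u, v, w} C K) [hH : IsWeilProj H] {X : 𝒱.Obj}
    [Module.Finite K (H.A X)] (n : ℤ) :
    PerfectIn C X n ↔ numTriv H X n = ⊥ ∧ numTriv H X (X.dim - n) = ⊥ := by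
  obtain ⟨β, hβ⟩ := exists_form H X n
  obtain ⟨κ, hκ, hκt⟩ := exists_kappa H X
  rw [perfectIn_iff (H := H) X n β hβ]
  have key : ∀ (z : C.gr X n) (w : C.gr X (X.dim - n)),
      H.tr X (H.cl ((z : C.A X) * (w : C.A X))) = 0 ↔ β z w = 0 := by
    intro z w
    rw [hκt _ _ (hβ z w), mul_eq_zero, or_iff_left hκ, Rat.cast_eq_zero]
  constructor
  · intro h
    constructor
    · rw [eq_bot_iff]
      intro z hz
      obtain ⟨h1, h2⟩ := hz
      have h3 := h.left ⟨z, h1⟩ fun w => (key ⟨z, h1⟩ w).1 (by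
        have := h2 w w.2
        rwa [ch_comm C] at this)
      exact congrArg Subtype.val h3
    · rw [eq_bot_iff]
      intro w hw
      obtain ⟨h1, h2⟩ := hw
      have h3 := h.right ⟨w, h1⟩ fun z => (key z ⟨w, h1⟩).1 (h2 z (by
        have e : (X.dim : ℤ) - (X.dim - n) = n := by ring
        rw [e]
        exact z.2))
      exact congrArg Subtype.val h3
  · rintro ⟨h1, h2⟩
    refine ⟨finite_of_num h1, finite_of_num h2, fun z hz => ?_, fun w hw => ?_⟩
    · have h3 : (z : C.A X) ∈ numTriv H X n := by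
        refine ⟨z.2, fun w hw => ?_⟩
        rw [ch_comm C]
        exact (key z ⟨w, hw⟩).2 (hz _)
      rw [h1, Submodule.mem_bot] at h3
      exact Subtype.ext h3
    · have h3 : (w : C.A X) ∈ numTriv H X (X.dim - n) := by
        refine ⟨w.2, fun z hz => ?_⟩
        have e : (X.dim : ℤ) - (X.dim - n) = n := by ring
        rw [e] at hz
        exact (key ⟨z, hz⟩ w).2 (hw _)
      rw [h2, Submodule.mem_bot] at h3
      exact Subtype.ext h3

end Q187.Par
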