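import Pool.Agent.Q56.CP.Defs
import Pool.Agent.Q56.CP.DefsQ
import Pool.Agent.Y154.BQ.Defs

/-!
# Frobenius endomorphisms and products: definitions
-/

set_option autoImplicit false

open CategoryTheory AlgebraicGeometry

universe u v w

namespace Q187.Par

open Polynomial Pool.Agent.H914 Pool.Agent.H914.VarClass Pool.Agent.H914.VarClass.Obj
  Pool.Agent.W492.BB Pool.Agent.Q56.CP

variable {k : Type u} [Field k] {𝒱 : VarClass k} {C : TheoryData.{u, v, 0} 𝒱 ℚ} {K : Type w}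
  [Field K]

/-- `Fr X` are the Frobenius endomorphisms of the varieties over the field with `q` elements, with
their known properties: they are compatible with all morphisms; `Fr X` acts on `CH^i(X)` as
multiplication by `q ^ i` and has degree `q ^ dim X`; the cohomology is finite-dimensional, and
`Fr X` is annihilated on `H^i(X)` by an integral polynomial all of whose complex roots have absolute
value `q ^ (i / 2)` (Deligne). -/
structure IsFrob (H : WeilTheoryData.{u, v, w} C K) (Fr : ∀ X : 𝒱.Obj, X ⟶ X) (q : ℕ) : Prop where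
  nat : ∀ {X Y : 𝒱.Obj} (f : X ⟶ Y), Fr X ≫ f = f ≫ Fr Y
  chow : ∀ (X : 𝒱.Obj) (i : ℕ) (z : C.A X), C.Deg i z → C.up (Fr X) z = (q : ℚ) ^ i • z
  degree : ∀ X : 𝒱.Obj, C.down (Fr X) 1 = (q : ℚ) ^ X.dim • (1 : C.A X)
  finite : ∀ X : 𝒱.Obj, Module.Finite K (H.A X)
  weil : ∀ (X : 𝒱.Obj) (i : ℕ), ∃ P : ℤ[X], P ≠ 0 ∧
    (∀ z : ℂ, aeval z P = 0 → ‖z‖ ^ 2 = (q : ℝ) ^ i) ∧
    ∀ x : H.A X, H.Deg i x → polyApply (hF H (Fr X)) P x = 0

/-- The variety `Z` is a product of `m` (possibly equal) members of the family `𝒮`: there are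
members `X 0, …, X (m - 1)` of `𝒮` and projections `pr i : Z ⟶ X i` with the universal property of
the product. -/
def IsProdOf (𝒮 : Set 𝒱.Obj) (m : ℕ) (Z : 𝒱.Obj) : Prop :=
  ∃ (X : Fin m → 𝒱.Obj) (pr : ∀ i, Z ⟶ X i), (∀ i, X i ∈ 𝒮) ∧
    (∀ (W : 𝒱.Obj) (f : ∀ i, W ⟶ X i), ∃! g : W ⟶ Z, ∀ i, g ≫ pr i = f i)

/-- The Chow motive of `Z` is a direct factor of a finite direct sum of effective Tate twists
`h(W l)(- a l)`, `a l ≥ 0`, of the Chow motives of products `W l` of members of the family `𝒮`: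
there are correspondences `Q l` from `Z` to `W l`, of degree `- a l`, and `P l` from `W l` to `Z`,
of degree `a l`, such that the sum of the compositions of `Q l` and `P l` is the identity of
`Z`. -/
def IsEffFactor (C : TheoryData.{u, v, 0} 𝒱 ℚ) (𝒮 : Set 𝒱.Obj) (Z : 𝒱.Obj) : Prop :=
  ∃ (r : ℕ) (W : Fin r → 𝒱.Obj) (a : Fin r → ℕ) (Q : ∀ l, C.A (Z.prod (W l)))
    (P : ∀ l, C.A ((W l).prod Z)), (∀ l, ∃ m, 1 ≤ m ∧ IsProdOf 𝒮 m (W l)) ∧
    (∀ l, C.Deg (Z.dim - a l) (Q l)) ∧ (∀ l, C.Deg ((W l).dim + a l) (P l)) ∧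
    ∑ l, C.comp (Q l) (P l) = C.graph (𝟙 Z)

/-- The cohomology of `X` vanishes in the degrees `1, …, s - 1`. -/
def Conn (H : WeilTheoryData.{u, v, w} C K) (s : ℕ) (X : 𝒱.Obj) : Prop :=
  ∀ i : ℤ, 0 < i → i < s → ∀ x : H.A X, H.Deg i x → x = 0

/-- There is a bilinear form `β` between `V` and `W` with `d v w (β v w)` for all `v`, `w`, both of
whose induced maps to the dual spaces are isomorphisms. -/
def PerfectQ {V W : Type v} [AddCommGroup V] [Module ℚ V] [AddCommGroup W] [Module ℚ W]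
    (d : V → W → ℚ → Prop) : Prop :=
  ∃ β : V →ₗ[ℚ] W →ₗ[ℚ] ℚ, (∀ v w, d v w (β v w)) ∧ Function.Bijective β ∧
    Function.Bijective β.flip

/-- The intersection pairing `CH^n(X)_ℚ × CH^(d-n)(X)_ℚ → ℚ`, `d = dim X`, is perfect: both
induced maps to the dual spaces are isomorphisms. (`HasDegree C t m`: the zero-cycle `t` has
degree `m`.) -/
def PerfectRat (C : TheoryData.{u, v, 0} 𝒱 ℚ) (X : 𝒱.Obj) (n : ℤ) : Prop :=
  PerfectQ (V := C.gr X n) (W := C.gr X (X.dim - n)) fun z w m =>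
    Pool.Agent.Y154.BQ.HasDegree C (C.mul (z : C.A X) (w : C.A X)) m

/-- The statement `BP(n)` for the variety `X`, with the pure theories `T i` (in the intended use
the rational higher Chow groups `CH^*(X, i)`, `i = 1, 2, …`) in place of the motivic cohomology
groups: the theories vanish on `X` in the degrees `n` and `dim X - n`, and the pairing
`CH^n(X)_ℚ × CH^(dim X - n)(X)_ℚ → ℚ` is perfect. -/
def BPFor {Fr : ∀ X : 𝒱.Obj, X ⟶ X} {q : ℕ} {I : Type} (T : I → Pure C Fr q) (X : 𝒱.Obj)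
    (n : ℤ) : Prop :=
  (∀ i, (T i).gr X n = ⊥) ∧ (∀ i, (T i).gr X (X.dim - n) = ⊥) ∧ PerfectRat C X n

/-- `BP(n)` holds for the products of `m` members of `𝒮`. -/
def BPProds {Fr : ∀ X : 𝒱.Obj, X ⟶ X} {q : ℕ} {I : Type} (T : I → Pure C Fr q) (𝒮 : Set 𝒱.Obj)
    (m : ℕ) (n : ℤ) : Prop :=
  ∀ Z, IsProdOf 𝒮 m Z → BPFor T Z n

/-- `BP(j)` holds for all `j ≤ n` and all varieties whose motives are direct factors of sums of
effective twists of products of members of `𝒮`. -/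
def BPFactors {Fr : ∀ X : 𝒱.Obj, X ⟶ X} {q : ℕ} {I : Type} (T : I → Pure C Fr q)
    (𝒮 : Set 𝒱.Obj) (n : ℤ) : Prop :=
  ∀ Z, IsEffFactor C 𝒮 Z → ∀ j : ℤ, j ≤ n → BPFor T Z j

end Q187.Par
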