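import Pool.Agent.Q187.Par.Perf

/-!
# Main theorems
-/

set_option autoImplicit false
set_option linter.unusedSectionVars false

open CategoryTheory AlgebraicGeometry

universe u v w

namespace Q187.Par

open Module Polynomial Pool.Agent.H914 Pool.Agent.H914.VarClass Pool.Agent.H914.VarClass.Obj
  Pool.Agent.W492.BB Pool.Agent.W550.Corr Pool.Agent.TH133 Pool.Agent.W484.CH Pool.Agent.Q56.FD
  Pool.Agent.Q56.CP

variable {k : Type u} [Field k] {𝒱 : VarClass k} {C : TheoryData.{u, v, 0} 𝒱 ℚ} {K : Type w}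
  [Field K]

lemma itC_eq {X : 𝒱.Obj} (Γ : C.A (X.prod X)) (n : ℕ) : itC C Γ n = powC C Γ n := by
  induction n with
  | zero => rfl
  | succ n ih =>
    change C.comp (itC C Γ n) Γ = C.comp (powC C Γ n) Γ
    rw [ih]

lemma nilp_iff {H : WeilTheoryData.{u, v, w} C K} {X : 𝒱.Obj} :
    Nilp H X ↔ Nilpotence H X := by
  simp only [Nilp, Nilpotence, itC_eq]

/-- Pure theories as theories on which correspondences act. -/
noncomputable def corrOf {Fr : ∀ X : 𝒱.Obj, X ⟶ X} {q : ℕ} (T : Pure C Fr q) : CorrData C :=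
  letI := T.group
  letI := T.module
  { M := T.M
    gr := T.gr
    act := fun {_ _} => (AddMonoidHom.mk' (fun Γ =>
      (AddMonoidHom.mk' (fun m => T.act Γ m) (T.act_add Γ)).toRatLinearMap)
      (fun Γ Δ => LinearMap.ext fun m => by
        rw [LinearMap.add_apply]; exact T.add_act Γ Δ m)).toRatLinearMap }

variable [CharZero K] {H : WeilTheoryData.{u, v, w} C K} [hC : IsChowProj C]
  [hH : IsWeilProj H] {X Y Z : 𝒱.Obj} {Fr : ∀ X : 𝒱.Obj, X ⟶ X} {q : ℕ}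

lemma corrOf_isPure (T : Pure C Fr q) : IsPure (corrOf T) Fr q where
  corr :=
    { app_mem := fun h h' => T.act_mem h h'
      app_comp := fun Γ Δ m => T.act_comp Γ Δ m
      app_id := fun m => T.act_id m }
  power _ := fun _ _ h => T.act_frob h
  zero X := T.gr_zero X

lemma num_isPure (hFr : IsFrob H Fr q) : IsPure (numData H) Fr q where
  corr := numData_isCorr H
  power X := numData_power H (hFr.frobenius X)
  zero X := numTriv_zero H X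

open Pool.Agent.Y154.BQ in
/-- **Perfectness with rational coefficients.** -/
theorem perfectRat_iff_num (H : WeilTheoryData.{u, v, w} C K) [hH : IsWeilProj H] {X : 𝒱.Obj}
    [Module.Finite K (H.A X)] (n : ℤ) :
    PerfectRat C X n ↔ numTriv H X n = ⊥ ∧ numTriv H X (X.dim - n) = ⊥ := by
  rw [← perfectIn_iff_num H]
  obtain ⟨β, hβ⟩ := exists_form H X n
  rw [perfectIn_iff (H := H) X n β hβ]
  constructor
  · rintro ⟨β', h1, h2, h3⟩
    have h4 : β' = β := LinearMap.ext fun z => LinearMap.ext fun w =>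
      hasDeg_unique (H := H) (h1 z w) (hβ z w)
    subst h4
    have h5 : β'.IsPerfPair := ⟨h2, h3⟩
    have h6 : IsReflexive ℚ (C.gr X n) := Module.IsReflexive.of_isPerfPair β'
    have h7 : IsReflexive ℚ (C.gr X (X.dim - n)) := Module.IsReflexive.of_isPerfPair β'.flip
    refine ⟨inferInstance, inferInstance, fun z hz => ?_, fun w hw => ?_⟩
    · apply h2.1
      rw [map_zero]
      exact LinearMap.ext hz
    · apply h3.1
      rw [map_zero]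
      exact LinearMap.ext hw
  · intro h
    have h1 := h.finV
    have h2 := h.finW
    have h3 : β.IsPerfPair := by
      apply LinearMap.IsPerfPair.of_injective
      · rw [injective_iff_map_eq_zero]
        intro z hz
        exact h.left z fun w => by rw [hz, LinearMap.zero_apply]
      · rw [injective_iff_map_eq_zero]
        intro w hw
        exact h.right w fun z => LinearMap.congr_fun hw z
    exact ⟨β, hβ, h3.1, h3.2⟩

/-- A product is a direct factor. -/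
lemma eff_of_prod {𝒮 : Set 𝒱.Obj} {m : ℕ} (hm : 1 ≤ m) (hZ : IsProdOf 𝒮 m Z) :
    IsEffFactor C 𝒮 Z := by
  refine ⟨1, fun _ => Z, fun _ => 0, fun _ => dg C Z, fun _ => dg C Z, fun _ => ⟨m, hm, hZ⟩,
    fun _ => ?_, fun _ => ?_, ?_⟩
  · rw [Nat.cast_zero, sub_zero]; exact dg_mem C Z
  · rw [Nat.cast_zero, add_zero]; exact dg_mem C Z
  · rw [Finset.univ_unique, Finset.sum_singleton, comp_dg]
    rfl

/-- **The Parshin property in one degree.** -/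
theorem parshin_exact (hq : 1 < q) (hFr : IsFrob H Fr q) (T : Pure C Fr q) {𝒮 : Set 𝒱.Obj}
    (hN : ∀ X ∈ 𝒮, Nilp H X) (n : ℕ) :
    (∀ s : ℕ, 1 ≤ s → s ≤ 2 * n → (∀ X ∈ 𝒮, Conn H s X) →
      ((∀ m, 1 ≤ m → ∀ Z, IsProdOf 𝒮 m Z → T.gr Z n = ⊥) ↔
        ∀ Z, IsProdOf 𝒮 (2 * n / s) Z → T.gr Z n = ⊥)) ∧
    ((∃ X ∈ 𝒮, 0 < X.dim) →
      ((∀ Z, IsEffFactor C 𝒮 Z → ∀ j : ℤ, j ≤ n → T.gr Z j = ⊥) ↔
        ∀ Z, IsProdOf 𝒮 (2 * n) Z → T.gr Z n = ⊥)) := by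
  have hN' : ∀ X ∈ 𝒮, Nilpotence H X := fun X hX => nilp_iff.1 (hN X hX)
  refine ⟨fun s hs1 hs2 hs => ⟨fun h Z hZ => h _ ?_ Z hZ, fun h m hm Z hZ => ?_⟩,
    fun hpos => ⟨fun h Z hZ => ?_, fun h Z hZ j hj => ?_⟩⟩
  · exact (Nat.one_le_div_iff (by omega)).2 hs2
  · exact low_exact hFr hq hN' hs1 hs (corrOf_isPure T) h hm hZ
  · rcases Nat.eq_zero_or_pos n with hn | hn
    · subst hn
      exact T.gr_zero Z
    · exact h Z (eff_of_prod (by omega) hZ) n le_rfl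
  · exact low_factor hFr hq hN' hpos (corrOf_isPure T) h hZ hj

/-- **Perfectness of the intersection pairing in one degree.** -/
theorem perfect_exact (hq : 1 < q) (hFr : IsFrob H Fr q) {𝒮 : Set 𝒱.Obj}
    (hN : ∀ X ∈ 𝒮, Nilp H X) {n : ℕ} (hn : 1 ≤ n) :
    (∀ s : ℕ, 1 ≤ s → s ≤ 2 * n → (∀ X ∈ 𝒮, Conn H s X) →
      ((∀ m, 1 ≤ m → ∀ Z, IsProdOf 𝒮 m Z → Pool.Agent.Y154.BQ.PerfectIn C Z n) ↔
        ∀ Z, IsProdOf 𝒮 (2 * n / s) Z → Pool.Agent.Y154.BQ.PerfectIn C Z n)) ∧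
    ((∃ X ∈ 𝒮, 0 < X.dim) →
      ((∀ Z, IsEffFactor C 𝒮 Z → ∀ j : ℤ, j ≤ n → Pool.Agent.Y154.BQ.PerfectIn C Z j) ↔
        ∀ Z, IsProdOf 𝒮 (2 * n) Z → Pool.Agent.Y154.BQ.PerfectIn C Z n)) := by
  have hN' : ∀ X ∈ 𝒮, Nilpotence H X := fun X hX => nilp_iff.1 (hN X hX)
  have hfin := hFr.finite
  have key : ∀ (Z : 𝒱.Obj) (j : ℤ), Pool.Agent.Y154.BQ.PerfectIn C Z j ↔
      (numData H).gr Z j = ⊥ ∧ (numData H).gr Z (Z.dim - j) = ⊥ :=
    fun Z j => perfectIn_iff_num H j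
  simp only [key]
  refine ⟨fun s hs1 hs2 hs => ⟨fun h Z hZ => h _ ?_ Z hZ, fun h m hm Z hZ => ⟨?_, ?_⟩⟩,
    fun hpos => ⟨fun h Z hZ => ?_, fun h Z hZ j hj => ⟨?_, ?_⟩⟩⟩
  · exact (Nat.one_le_div_iff (by omega)).2 hs2
  · exact low_exact hFr hq hN' hs1 hs (num_isPure hFr) (fun Z hZ => (h Z hZ).1) hm hZ
  · exact high_exact hFr hq hN' hs1 hs (num_isPure hFr) (fun Z hZ => (h Z hZ).2) hm hZ
  · exact h Z (eff_of_prod (by omega) hZ) n le_rfl
  · exact low_factor hFr hq hN' hpos (num_isPure hFr) (fun Z hZ => (h Z hZ).1) hZ hj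
  · exact high_factor hFr hq hN' hpos (num_isPure hFr) (fun Z hZ => (h Z hZ).2) hZ hj

/-- **The property `BP(n)`.** -/
theorem bp_exact (hq : 1 < q) (hFr : IsFrob H Fr q) {I : Type} (T : I → Pure C Fr q)
    {𝒮 : Set 𝒱.Obj} (hN : ∀ X ∈ 𝒮, Nilp H X) {n : ℕ} (hn : 1 ≤ n) :
    (∀ s : ℕ, 1 ≤ s → s ≤ 2 * n → (∀ X ∈ 𝒮, Conn H s X) →
      ((∀ m, 1 ≤ m → ∀ Z, IsProdOf 𝒮 m Z → BPFor T Z n) ↔
        ∀ Z, IsProdOf 𝒮 (2 * n / s) Z → BPFor T Z n)) ∧
    ((∃ X ∈ 𝒮, 0 < X.dim) →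
      ((∀ Z, IsEffFactor C 𝒮 Z → ∀ j : ℤ, j ≤ n → BPFor T Z j) ↔
        ∀ Z, IsProdOf 𝒮 (2 * n) Z → BPFor T Z n)) := by
  have hN' : ∀ X ∈ 𝒮, Nilpotence H X := fun X hX => nilp_iff.1 (hN X hX)
  have hfin := hFr.finite
  have key : ∀ (Z : 𝒱.Obj) (j : ℤ), BPFor T Z j ↔ (∀ i, (corrOf (T i)).gr Z j = ⊥) ∧
      (∀ i, (corrOf (T i)).gr Z (Z.dim - j) = ⊥) ∧
      (numData H).gr Z j = ⊥ ∧ (numData H).gr Z (Z.dim - j) = ⊥ := fun Z j =>
    and_congr_right fun _ => and_congr_right fun _ => perfectRat_iff_num H j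
  simp only [key]
  refine ⟨fun s hs1 hs2 hs => ⟨fun h Z hZ => h _ ?_ Z hZ, fun h m hm Z hZ => ⟨fun i => ?_,
    fun i => ?_, ?_, ?_⟩⟩, fun hpos => ⟨fun h Z hZ => ?_, fun h Z hZ j hj => ⟨fun i => ?_,
    fun i => ?_, ?_, ?_⟩⟩⟩
  · exact (Nat.one_le_div_iff (by omega)).2 hs2
  · exact low_exact hFr hq hN' hs1 hs (corrOf_isPure (T i)) (fun Z hZ => (h Z hZ).1 i) hm hZ
  · exact high_exact hFr hq hN' hs1 hs (corrOf_isPure (T i)) (fun Z hZ => (h Z hZ).2.1 i) hm hZ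
  · exact low_exact hFr hq hN' hs1 hs (num_isPure hFr) (fun Z hZ => (h Z hZ).2.2.1) hm hZ
  · exact high_exact hFr hq hN' hs1 hs (num_isPure hFr) (fun Z hZ => (h Z hZ).2.2.2) hm hZ
  · exact h Z (eff_of_prod (by omega) hZ) n le_rfl
  · exact low_factor hFr hq hN' hpos (corrOf_isPure (T i)) (fun Z hZ => (h Z hZ).1 i) hZ hj
  · exact high_factor hFr hq hN' hpos (corrOf_isPure (T i)) (fun Z hZ => (h Z hZ).2.1 i) hZ hj
  · exact low_factor hFr hq hN' hpos (num_isPure hFr) (fun Z hZ => (h Z hZ).2.2.1) hZ hj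
  · exact high_factor hFr hq hN' hpos (num_isPure hFr) (fun Z hZ => (h Z hZ).2.2.2) hZ hj

end Q187.Par
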