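import Pool.Agent.Q56.CP.Desc

/-!
# Vanishing of a theory in one degree, removing one factor at a time
-/

set_option autoImplicit false
set_option linter.unusedSectionVars false

open CategoryTheory AlgebraicGeometry

universe u v w

namespace Q187.Par

open Module Polynomial Pool.Agent.H914 Pool.Agent.H914.VarClass Pool.Agent.H914.VarClass.Obj
  Pool.Agent.W492.BB Pool.Agent.W550.Corr Pool.Agent.TH133 Pool.Agent.W484.CH Pool.Agent.Q56.FD
  Pool.Agent.Q56.CP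

variable {k : Type u} [Field k] {𝒱 : VarClass k} {C : TheoryData.{u, v, 0} 𝒱 ℚ}
  [hC : IsChowProj C] {T : CorrData C} (hT : IsCorrTheory T)

/-- In every relation between the eigenvalues there is a factor for which the motive splits, unless
the theory is known to vanish on the product, in the degree in question. -/
def HasLetter (T : CorrData C) (Fr : ∀ X : 𝒱.Obj, X ⟶ X) (q : ℕ)
    (𝒜 : ∀ ι : Type, (ι → 𝒱.Obj) → ℤ → Prop) (R : 𝒱.Obj → Set Qb) : Prop :=
  ∀ (ι : Type) [Fintype ι] [Nonempty ι] (X : ι → 𝒱.Obj) (r : ℤ), 𝒜 ι X r → ∀ α : ι → Qb,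
    (∀ i, α i ∈ R (X i)) → ∏ i, α i = (q : Qb) ^ r →
    (∀ (Z : 𝒱.Obj) (pr : ∀ i, Z ⟶ X i), IsProd X Z pr → T.gr Z r = ⊥) ∨
    ∃ (i : ι) (j : ℕ), α i = (q : Qb) ^ j ∧ Split C (Fr (X i)) q j ∧
      (Nonempty {i' // ¬ i' ∈ ({i} : Finset ι)} →
        𝒜 {i' // ¬ i' ∈ ({i} : Finset ι)} (fun i' => X i') (r - j))

variable {Fr : ∀ X : 𝒱.Obj, X ⟶ X}
  (hnat : ∀ {X Y : 𝒱.Obj} (f : X ⟶ Y), Fr X ≫ f = f ≫ Fr Y)
  {q : ℕ} (hq : 1 < q) (hpow : ∀ X, ActsAsPower T (Fr X) q)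

include hT hnat hq hpow

/-- **The vanishing theorem.** -/
theorem vanish_letters {𝒜 : ∀ ι : Type, (ι → 𝒱.Obj) → ℤ → Prop} {R : 𝒱.Obj → Set Qb}
    (hB : HasLetter T Fr q 𝒜 R)
    (hpoly : ∀ (ι : Type) (X : ι → 𝒱.Obj) (r : ℤ), 𝒜 ι X r → ∀ i, ∃ P : ℚ[X], P ≠ 0 ∧
      aeval (fr C (Fr (X i))) P = 0 ∧ ∀ α : Qb, aeval α P = 0 → α ∈ R (X i))
    {Z0 : 𝒱.Obj} (h0 : T.gr Z0 0 = ⊥) :
    ∀ (n : ℕ) (ι : Type) [Fintype ι] [Nonempty ι], Fintype.card ι = n → ∀ (X : ι → 𝒱.Obj)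
      (r : ℤ), 𝒜 ι X r → ∀ (Z : 𝒱.Obj) (pr : ∀ i, Z ⟶ X i), IsProd X Z pr →
      T.gr Z r = ⊥ := by
  classical
  intro n
  induction n using Nat.strong_induction_on with
  | _ n ih =>
  intro ι _ _ hn X r hX Z pr h
  by_contra hne
  have hnt : Nontrivial (T.gr Z r) := by
    rw [Submodule.nontrivial_iff_ne_bot]
    exact hne
  choose φ hφ using fun i : ι => exists_PF (Fr := Fr) h {i}
  choose P hP0 hP hPR using hpoly ι X r hX
  obtain ⟨z, α, hz0, hα, hrel⟩ := exists_common (fun i => opr hT (φ i) r)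
    (fun i j => opr_comm hT ((hφ i).comm h (hφ j)) r) (fun i => P i)
    (fun i => hP0 _) (fun i => LinearMap.ext fun z => Subtype.ext (by
      rw [aeval_opr]
      exact aeval_pf hT hnat h (hφ i) (hP _) _))
  have hz0' : (z : T.M Z) ≠ 0 := fun h => hz0 (Subtype.ext h)
  have hq0 : (q : ℚ) ≠ 0 := by exact_mod_cast (by omega : q ≠ 0)
  -- the total relation
  have htot : ∏ i, α i = (q : Qb) ^ r := by
    have h1 := list_opr hT h hφ r z Finset.univ.toList (Finset.nodup_toList _) Finset.univ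
      (fun i => by simp) (Fr Z) (IsPF.univ hnat)
    have h2 : pullT T (Fr Z) (z : T.M Z) = ((q : ℚ) ^ r) • (z : T.M Z) := hpow Z r z z.2
    have h3 := (hrel Finset.univ.toList ((q : ℚ) ^ r)).2 (Subtype.ext (by
      rw [h1, h2]
      rfl))
    rw [Finset.prod_map_toList, map_zpow₀, map_natCast] at h3
    exact h3
  rcases hB ι X r hX α (fun i => hPR _ _ (hα i)) htot with hbase | ⟨i0, j, hj, hsplit, hadm⟩
  · exact hne (hbase Z pr h)
  -- the block
  have hψ := hφ i0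
  have hψz : pullT T (φ i0) (z : T.M Z) = ((q : ℚ) ^ j) • (z : T.M Z) := by
    have h1 := list_opr hT h hφ r z [i0] (by simp) {i0}
      (fun i => by simp) (φ i0) hψ
    have h2 := (hrel [i0] ((q : ℚ) ^ j)).1 (by
      simp [hj])
    rw [← h1, h2]
    rfl
  obtain ⟨prA, hA⟩ := IsProd.single X i0
  rcases exists_block h hnat hψ hA with ⟨-, g, f, h1, h2, h3⟩ |
    ⟨hne', Y, prY, g, f, hY, h1, h2, h3⟩
  · -- the block is everything
    have hz1 : pullT T g (z : T.M Z) ∈ T.gr (X i0) r := pullT_mem hT g z.2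
    have hz2 : pullT T (Fr (X i0)) (pullT T g (z : T.M Z)) =
        ((q : ℚ) ^ j) • pullT T g (z : T.M Z) := by
      rw [← pullT_comp hT, h3, pullT_comp hT, hψz, map_smul]
    have hz3 : pullT T g (z : T.M Z) ≠ 0 := fun h4 =>
      hz0' (pullT_injective_of_iso hT h2 (h4.trans (map_zero _).symm))
    exact hz3 (eq_zero_of_split_self hT hq (hpow _) hsplit h0 hz1 hz2)
  · have hz1 : pullT T g (z : T.M Z) ∈ T.gr ((X i0).prod Y) r := pullT_mem hT g z.2
    have hz2 : pullT T (prodMap (Fr (X i0)) (𝟙 Y)) (pullT T g (z : T.M Z)) =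
        ((q : ℚ) ^ j) • pullT T g (z : T.M Z) := by
      rw [← pullT_comp hT, h3, pullT_comp hT, hψz, map_smul]
    apply hz0'
    apply pullT_injective_of_iso hT h2
    rw [map_zero]
    refine eq_zero_of_split hT hsplit (r := r) (Y := Y) ?_ hz1 hz2
    have hcard : Fintype.card {i // ¬ i ∈ ({i0} : Finset ι)} < n := by
      rw [← hn]
      exact Fintype.card_subtype_lt (x := i0) (not_not.2 (Finset.mem_singleton_self i0))
    exact ih _ hcard {i // ¬ i ∈ ({i0} : Finset ι)} rfl (fun i => X i) (r - j) (hadm hne') Y prY hY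

end Q187.Par
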