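import Pool.Agent.Q187.Par.Letter

/-!
# Direct factors of effective twists of products
-/

set_option autoImplicit false
set_option linter.unusedSectionVars false

open CategoryTheory AlgebraicGeometry

universe u v w

namespace Q187.Par

open Module Polynomial Pool.Agent.H914 Pool.Agent.H914.VarClass Pool.Agent.H914.VarClass.Obj
  Pool.Agent.W492.BB Pool.Agent.W550.Corr Pool.Agent.TH133 Pool.Agent.W484.CH Pool.Agent.Q56.FD
  Pool.Agent.Q56.CP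

variable {k : Type u} [Field k] {𝒱 : VarClass k} {C : TheoryData.{u, v, 0} 𝒱 ℚ} {K : Type w}
  [Field K] [CharZero K] {H : WeilTheoryData.{u, v, w} C K} [hC : IsChowProj C]
  [hH : IsWeilProj H] {X Y : 𝒱.Obj}

section

variable {Fr : ∀ X : 𝒱.Obj, X ⟶ X} {q : ℕ} (hFr : IsFrob H Fr q)

include hFr

lemma conn_one (X : 𝒱.Obj) : Conn H 1 X := fun i h0 h1 => by
  push_cast at h1
  omega

/-- Vanishing outside of the range `0, …, dim`. -/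
theorem vanish_out (hq : 1 < q) {𝒮 : Set 𝒱.Obj} (hN : ∀ X ∈ 𝒮, Nilpotence H X)
    {T : CorrData C} (hT : IsPure T Fr q) {r : ℤ} {m : ℕ} (hm : 1 ≤ m) {Z : 𝒱.Obj}
    (hZ : IsProdOf 𝒮 m Z) (hr : r < 0 ∨ Z.dim < r) : T.gr Z r = ⊥ := by
  classical
  obtain ⟨X, pr, hX, h⟩ := hZ.isProd
  have hne : Nonempty (Fin m) := ⟨⟨0, hm⟩⟩
  refine vanish_letters hT.corr hFr.nat hq hT.power
    (𝒜 := fun ι X r => (∀ i, X i ∈ 𝒮) ∧ (r < 0 ∨ ∀ _ : Fintype ι, ∑ i, ((X i).dim : ℤ) < r))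
    (R := fun X => letters q 1 X) ?_ ?_
    (Z0 := Z) (hT.zero Z) _ (Fin m) rfl X r ⟨hX, ?_⟩ Z pr h
  · intro ι _ _ X r hr α hα hrel
    exfalso
    obtain ⟨hX, hr⟩ := hr
    choose l hl1 hl2 hl3 hl4 hl5 hl6 using hα
    have h1 := weight_sum hq hl2 hrel
    rcases hr with hr | hr
    · have h2 : 0 ≤ ∑ i, (l i : ℤ) := Finset.sum_nonneg fun i _ => by positivity
      omega
    · have hr := hr inferInstance
      have h2 : ∑ i, (l i : ℤ) ≤ ∑ i, 2 * ((X i).dim : ℤ) := Finset.sum_le_sum fun i _ => by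
        exact_mod_cast hl1 i
      rw [← Finset.mul_sum] at h2
      omega
  · intro ι X r hr i
    exact exists_poly_letters hFr (hN _ (hr.1 i)) (conn_one hFr _)
  · rcases hr with hr | hr
    · exact Or.inl hr
    · right
      intro F
      rw [dim_isProd (H := H) (Fin m) hne X Z pr h] at hr
      rw [Subsingleton.elim F inferInstance]
      exact_mod_cast hr

/-- **Low degrees: the exact number of factors.** -/
theorem low_exact (hq : 1 < q) {𝒮 : Set 𝒱.Obj} (hN : ∀ X ∈ 𝒮, Nilpotence H X) {s : ℕ}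
    (hs1 : 1 ≤ s) (hs : ∀ X ∈ 𝒮, Conn H s X) {T : CorrData C} (hT : IsPure T Fr q) {n : ℕ}
    (hbase : ∀ Z, IsProdOf 𝒮 (2 * n / s) Z → T.gr Z n = ⊥)
    {m : ℕ} (hm : 1 ≤ m) {Z : 𝒱.Obj} (hZ : IsProdOf 𝒮 m Z) : T.gr Z n = ⊥ := by
  refine vanish_low hFr hq hN hs hT (fun m hm1 hm2 Z hZ => ?_) hm hZ
  have h1 : m ≤ 2 * n / s := (Nat.le_div_iff_mul_le (by omega)).2 hm2
  obtain ⟨X, pr, hX, -⟩ := id hZ
  obtain ⟨Z', h2, -, h3⟩ := exists_pad (H := H) (hX ⟨0, hm1⟩) hZ (2 * n / s - m)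
  rw [Nat.add_sub_cancel' h1] at h2
  refine (h3 0 (Nat.zero_le _)).vanish hT.corr ?_
  rw [Nat.cast_zero, add_zero]
  exact hbase Z' h2

/-- **High degrees: the exact number of factors.** -/
theorem high_exact (hq : 1 < q) {𝒮 : Set 𝒱.Obj} (hN : ∀ X ∈ 𝒮, Nilpotence H X) {s : ℕ}
    (hs1 : 1 ≤ s) (hs : ∀ X ∈ 𝒮, Conn H s X) {T : CorrData C} (hT : IsPure T Fr q) {n : ℕ}
    (hbase : ∀ Z, IsProdOf 𝒮 (2 * n / s) Z → T.gr Z (Z.dim - n) = ⊥)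
    {m : ℕ} (hm : 1 ≤ m) {Z : 𝒱.Obj} (hZ : IsProdOf 𝒮 m Z) : T.gr Z (Z.dim - n) = ⊥ := by
  refine vanish_high hFr hq hN hs hT (fun m hm1 hm2 Z hZ => ?_) hm hZ
  have h1 : m ≤ 2 * n / s := (Nat.le_div_iff_mul_le (by omega)).2 hm2
  obtain ⟨X, pr, hX, -⟩ := id hZ
  obtain ⟨Z', h2, h4, h3⟩ := exists_pad (H := H) (hX ⟨0, hm1⟩) hZ (2 * n / s - m)
  rw [Nat.add_sub_cancel' h1] at h2
  refine (h3 _ le_rfl).vanish hT.corr ?_
  have h5 : (Z.dim : ℤ) - n + (((2 * n / s - m) * (X ⟨0, hm1⟩).dim : ℕ) : ℤ) = Z'.dim - n := by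
    rw [h4]
    push_cast
    ring
  rw [h5]
  exact hbase Z' h2

/-- Smaller degrees, low. -/
theorem low_le (hq : 1 < q) {𝒮 : Set 𝒱.Obj} (hN : ∀ X ∈ 𝒮, Nilpotence H X)
    (hpos : ∃ X ∈ 𝒮, 0 < X.dim) {T : CorrData C} (hT : IsPure T Fr q) {n : ℕ}
    (hbase : ∀ Z, IsProdOf 𝒮 (2 * n) Z → T.gr Z n = ⊥) {j : ℕ} (hj : j ≤ n)
    {m : ℕ} (hm : 1 ≤ m) {Z : 𝒱.Obj} (hZ : IsProdOf 𝒮 m Z) : T.gr Z j = ⊥ := by
  obtain ⟨X, hX, hX0⟩ := hpos
  refine vanish_low (s := 1) hFr hq hN (fun X _ => conn_one hFr X) hT (fun m hm1 hm2 Z hZ => ?_)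
    hm hZ
  rw [mul_one] at hm2
  obtain ⟨Z', h2, -, h3⟩ := exists_pad (H := H) hX hZ (2 * n - m)
  rw [Nat.add_sub_cancel' (by omega)] at h2
  have h4 : n - j ≤ (2 * n - m) * X.dim := by
    have : 2 * n - m ≤ (2 * n - m) * X.dim := Nat.le_mul_of_pos_right _ hX0
    omega
  refine (h3 _ h4).vanish hT.corr ?_
  have h5 : (j : ℤ) + ((n - j : ℕ) : ℤ) = n := by omega
  rw [h5]
  exact hbase Z' h2

/-- Smaller degrees, high. -/
theorem high_le (hq : 1 < q) {𝒮 : Set 𝒱.Obj} (hN : ∀ X ∈ 𝒮, Nilpotence H X)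
    (hpos : ∃ X ∈ 𝒮, 0 < X.dim) {T : CorrData C} (hT : IsPure T Fr q) {n : ℕ}
    (hbase : ∀ Z, IsProdOf 𝒮 (2 * n) Z → T.gr Z (Z.dim - n) = ⊥) {j : ℕ} (hj : j ≤ n)
    {m : ℕ} (hm : 1 ≤ m) {Z : 𝒱.Obj} (hZ : IsProdOf 𝒮 m Z) : T.gr Z (Z.dim - j) = ⊥ := by
  obtain ⟨X, hX, hX0⟩ := hpos
  refine vanish_high (s := 1) hFr hq hN (fun X _ => conn_one hFr X) hT (fun m hm1 hm2 Z hZ => ?_)
    hm hZ
  rw [mul_one] at hm2
  obtain ⟨Z', h2, h6, h3⟩ := exists_pad (H := H) hX hZ (2 * n - m)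
  rw [Nat.add_sub_cancel' (by omega)] at h2
  have h4 : n - j ≤ (2 * n - m) * X.dim := by
    have : 2 * n - m ≤ (2 * n - m) * X.dim := Nat.le_mul_of_pos_right _ hX0
    omega
  refine (h3 ((2 * n - m) * X.dim - (n - j)) (Nat.sub_le _ _)).vanish hT.corr ?_
  have h5 : (Z.dim : ℤ) - j + (((2 * n - m) * X.dim - (n - j) : ℕ) : ℤ) = Z'.dim - n := by
    rw [h6]
    rw [Nat.cast_sub h4]
    push_cast [Nat.cast_sub hj]
    ring
  rw [h5]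
  exact hbase Z' h2

omit hFr in
/-- The transpose of the decomposition. -/
lemma sum_tp {Z : 𝒱.Obj} {r : ℕ} {W : Fin r → 𝒱.Obj} {Q : ∀ l, C.A (Z.prod (W l))}
    {P : ∀ l, C.A ((W l).prod Z)} (h : ∑ l, C.comp (Q l) (P l) = C.graph (𝟙 Z)) :
    ∑ l, C.comp (tp C (P l)) (tp C (Q l)) = C.graph (𝟙 Z) := by
  have h1 := congrArg (tp C) h
  have h2 : tp C (C.graph (𝟙 Z)) = C.graph (𝟙 Z) := tp_dg C Z
  rw [h2, tp, map_sum] at h1
  rw [← h1]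
  exact Finset.sum_congr rfl fun l _ => (tp_comp C (ch_comm C) _ _).symm

/-- **Direct factors, low degrees.** -/
theorem low_factor (hq : 1 < q) {𝒮 : Set 𝒱.Obj} (hN : ∀ X ∈ 𝒮, Nilpotence H X)
    (hpos : ∃ X ∈ 𝒮, 0 < X.dim) {T : CorrData C} (hT : IsPure T Fr q) {n : ℕ}
    (hbase : ∀ Z, IsProdOf 𝒮 (2 * n) Z → T.gr Z n = ⊥) {Z : 𝒱.Obj} (hZ : IsEffFactor C 𝒮 Z)
    {j : ℤ} (hj : j ≤ n) : T.gr Z j = ⊥ := by
  obtain ⟨r, W, a, Q, P, hW, hQ, hP, hQP⟩ := hZ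
  rw [eq_bot_iff]
  intro z hz
  have h2 : T.act (∑ l, C.comp (Q l) (P l)) z = 0 := by
    rw [map_sum, LinearMap.sum_apply]
    refine Finset.sum_eq_zero fun l _ => ?_
    have h1 : T.act (Q l) z ∈ T.gr (W l) (j + -(a l : ℤ)) := hT.corr.act_mem (by
      rw [← sub_eq_add_neg]; exact hQ l) hz
    obtain ⟨m, hm, hWm⟩ := hW l
    have h3 : T.gr (W l) (j + -(a l : ℤ)) = ⊥ := by
      rcases lt_or_ge (j + -(a l : ℤ)) 0 with h4 | h4
      · exact vanish_out hFr hq hN hT hm hWm (Or.inl h4)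
      · obtain ⟨j', hj'⟩ := Int.eq_ofNat_of_zero_le h4
        rw [hj']
        exact low_le hFr hq hN hpos hT hbase (by omega) hm hWm
    rw [h3, Submodule.mem_bot] at h1
    rw [hT.corr.act_comp, h1, map_zero]
  rw [hQP] at h2
  rw [Submodule.mem_bot, ← h2]
  exact (hT.corr.act_id z).symm

/-- **Direct factors, high degrees.** -/
theorem high_factor (hq : 1 < q) {𝒮 : Set 𝒱.Obj} (hN : ∀ X ∈ 𝒮, Nilpotence H X)
    (hpos : ∃ X ∈ 𝒮, 0 < X.dim) {T : CorrData C} (hT : IsPure T Fr q) {n : ℕ}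
    (hbase : ∀ Z, IsProdOf 𝒮 (2 * n) Z → T.gr Z (Z.dim - n) = ⊥) {Z : 𝒱.Obj}
    (hZ : IsEffFactor C 𝒮 Z) {j : ℤ} (hj : j ≤ n) : T.gr Z (Z.dim - j) = ⊥ := by
  obtain ⟨r, W, a, Q, P, hW, hQ, hP, hQP⟩ := hZ
  rw [eq_bot_iff]
  intro z hz
  have h2 : T.act (∑ l, C.comp (tp C (P l)) (tp C (Q l))) z = 0 := by
    rw [map_sum, LinearMap.sum_apply]
    refine Finset.sum_eq_zero fun l _ => ?_
    have h0 := tp_mem C (hP l)
    have h1 : T.act (tp C (P l)) z ∈ T.gr (W l) (Z.dim - j + ((W l).dim + a l - Z.dim)) :=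
      hT.corr.act_mem (by
        have e : (Z.dim : ℤ) + ((W l).dim + a l - Z.dim) = (W l).dim + a l := by ring
        rw [e]; exact h0) hz
    have e2 : (Z.dim : ℤ) - j + ((W l).dim + a l - Z.dim) = (W l).dim - (j - a l) := by ring
    rw [e2] at h1
    obtain ⟨m, hm, hWm⟩ := hW l
    have h3 : T.gr (W l) ((W l).dim - (j - a l)) = ⊥ := by
      rcases lt_or_ge (j - (a l : ℤ)) 0 with h4 | h4
      · exact vanish_out hFr hq hN hT hm hWm (Or.inr (by omega))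
      · obtain ⟨j', hj'⟩ := Int.eq_ofNat_of_zero_le h4
        rw [hj']
        exact high_le hFr hq hN hpos hT hbase (by omega) hm hWm
    rw [h3, Submodule.mem_bot] at h1
    rw [hT.corr.act_comp, h1, map_zero]
  rw [sum_tp hQP] at h2
  rw [Submodule.mem_bot, ← h2]
  exact (hT.corr.act_id z).symm

end

end Q187.Par
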