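import Pool.Agent.Q187.Par.Tw
import Pool.Agent.Q56.CP.DefsP

/-!
# The vanishing theorems in one degree
-/

set_option autoImplicit false
set_option linter.unusedSectionVars false

open CategoryTheory AlgebraicGeometry

universe u v w

namespace Q187.Par

open Module Polynomial Pool.Agent.H914 Pool.Agent.H914.VarClass Pool.Agent.H914.VarClass.Obj
  Pool.Agent.W492.BB Pool.Agent.W550.Corr Pool.Agent.TH133 Pool.Agent.W484.CH Pool.Agent.Q56.FD
  Pool.Agent.Q56.CP

variable {k : Type u} [Field k] {𝒱 : VarClass k} {C : TheoryData.{u, v, 0} 𝒱 ℚ} {K : Type w}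
  [Field K] [CharZero K] {H : WeilTheoryData.{u, v, w} C K} [hC : IsChowProj C]
  [hH : IsWeilProj H] {X Y : 𝒱.Obj}

/-- The possible eigenvalues of the Frobenius endomorphism. -/
def letters (q s : ℕ) (X : 𝒱.Obj) : Set Qb :=
  {α | ∃ l ≤ 2 * X.dim, (∀ τ : Qb →+* ℂ, ‖τ α‖ ^ 2 = (q : ℝ) ^ l) ∧ (l = 0 → α = 1) ∧
    (l = 2 * X.dim → α = (q : Qb) ^ X.dim) ∧ (l = 0 ∨ s ≤ l) ∧
    (l = 2 * X.dim ∨ l + s ≤ 2 * X.dim)}

lemma Conn.top {s : ℕ} (h : Conn H s X) {i : ℤ} (h0 : 0 < i) (h1 : i < s) {x : H.A X}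
    (hx : x ∈ H.gr X (2 * X.dim - i)) : x = 0 := by
  apply H.nondeg
  intro b
  refine homog_induction H.toTheoryData (p := fun b => H.tr X (x * b) = 0) ?_ ?_ b
  · intro j b hb
    by_cases hj : j = i
    · subst hj
      rw [h j h0 h1 b hb, mul_zero, map_zero]
    · exact tr_zero H (H.mul_mem hx hb) (by omega)
  · intro a b ha hb
    rw [mul_add, map_add, ha, hb, add_zero]

lemma Conn.dim {s : ℕ} (h : Conn H s X) : X.dim = 0 ∨ s ≤ 2 * X.dim := by
  by_contra hcon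
  push Not at hcon
  obtain ⟨a, ha, ha1, -⟩ := exists_deg_one C X
  apply tr_pt_ne (H := H) ha ha1
  rw [h (2 * X.dim) (by omega) (by omega) (H.cl a) (H.cl_mem ha), map_zero]

variable {Fr : ∀ X : 𝒱.Obj, X ⟶ X} {q s : ℕ} (hFr : IsFrob H Fr q)

include hFr

/-- A relation for the Frobenius endomorphism. -/
theorem exists_poly_letters (hN : Nilpotence H X) (hs : Conn H s X) : ∃ P : ℚ[X], P ≠ 0 ∧
    aeval (fr C (Fr X)) P = 0 ∧ ∀ α : Qb, aeval α P = 0 → α ∈ letters q s X := by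
  classical
  obtain ⟨Q, hQ0, hQk, hQw, hQz, hQt⟩ := hFr.exists_polys X
  let Q' : ℕ → ℤ[X] := fun i => if i = 0 ∨ i = 2 * X.dim ∨ (s ≤ i ∧ i + s ≤ 2 * X.dim) then Q i
    else 1
  have hzero : ∀ i : ℕ, i ≤ 2 * X.dim → ¬ (i = 0 ∨ i = 2 * X.dim ∨ (s ≤ i ∧ i + s ≤ 2 * X.dim)) →
      ∀ x ∈ H.gr X i, x = 0 := by
    intro i hi hcon x hx
    push Not at hcon
    obtain ⟨h1, h2, h3⟩ := hcon
    by_cases h4 : s ≤ i
    · have h5 := h3 h4
      refine hs.top (i := 2 * X.dim - i) (by omega) (by omega) ?_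
      have h6 : (2 * (X.dim : ℤ) - (2 * X.dim - i)) = i := by ring
      rw [h6]
      exact hx
    · exact hs i (by omega) (by omega) x hx
  obtain ⟨P, hP0, hP1, hP2⟩ := exists_relation (f := Fr X) hN (Q := Q') (fun i _ => by
      change (if _ then _ else _ : ℤ[X]) ≠ 0
      split_ifs
      · exact hQ0 i
      · exact one_ne_zero) (fun i hi x hx => by
      change aeval (hF H (Fr X)) (if _ then _ else _ : ℤ[X]) x = 0
      split_ifs with h
      · exact hQk i x hx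
      · rw [hzero i hi h x hx, map_zero])
  refine ⟨P, hP0, hP1, fun α hα => ?_⟩
  obtain ⟨l, hl, h1⟩ := hP2 α hα
  change aeval α (if _ then _ else _ : ℤ[X]) = 0 at h1
  split_ifs at h1 with h
  · refine ⟨l, hl, fun τ => ?_, fun h0 => ?_, fun h0 => ?_, ?_, ?_⟩
    · apply hQw l
      have h2 : aeval (τ α) (Q l) = τ (aeval α (Q l)) := by
        rw [Polynomial.aeval_def, Polynomial.aeval_def, Polynomial.hom_eval₂]
        congr 1
        exact Subsingleton.elim _ _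
      rw [h2, h1, map_zero]
    · subst h0
      rw [hQz, map_sub, aeval_X, map_one, sub_eq_zero] at h1
      exact h1
    · subst h0
      rw [hQt, map_sub, aeval_X, aeval_C, sub_eq_zero] at h1
      rw [h1, map_pow, map_natCast]
    · rcases h with h | h | h
      · exact Or.inl h
      · rcases hs.dim with h2 | h2
        · left; omega
        · right; omega
      · exact Or.inr h.1
    · rcases h with h | h | h
      · rcases hs.dim with h2 | h2
        · left; omega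
        · right; omega
      · exact Or.inl h
      · exact Or.inr h.2
  · rw [map_one] at h1
    exact absurd h1 one_ne_zero

/-- The splitting in the extreme degrees. -/
theorem split_zero (hq : 1 < q) (hN : Nilpotence H X) : Split C (Fr X) q 0 := by
  obtain ⟨Q, hQ0, hQk, -⟩ := hFr.exists_polys X
  have hfin := hFr.finite X
  have h1 : chi X Q ≠ 0 := Finset.prod_ne_zero_iff.2 fun i _ => hQ0 i
  refine split_at hq (hFr.frobenius X) (hFr.weights X) hN (χ := (chi X Q).map (algebraMap ℤ ℚ))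
    ((Polynomial.map_ne_zero_iff (algebraMap ℤ ℚ).injective_int).2 h1) ?_ (Nat.zero_le _)
    tate_zero (by rw [Nat.sub_zero]; exact tate_top)
  rw [aeval_map_rat]
  exact chi_kills fun i _ => hQk i

theorem split_top (hq : 1 < q) (hN : Nilpotence H X) : Split C (Fr X) q X.dim := by
  obtain ⟨Q, hQ0, hQk, -⟩ := hFr.exists_polys X
  have hfin := hFr.finite X
  have h1 : chi X Q ≠ 0 := Finset.prod_ne_zero_iff.2 fun i _ => hQ0 i
  refine split_at hq (hFr.frobenius X) (hFr.weights X) hN (χ := (chi X Q).map (algebraMap ℤ ℚ))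
    ((Polynomial.map_ne_zero_iff (algebraMap ℤ ℚ).injective_int).2 h1) ?_ le_rfl
    tate_top (by rw [Nat.sub_self]; exact tate_zero)
  rw [aeval_map_rat]
  exact chi_kills fun i _ => hQk i

omit hFr in
lemma sum_compl {ι : Type} [Fintype ι] [DecidableEq ι] (i0 : ι) (f : ι → ℤ)
    [F : Fintype {i // ¬ i ∈ ({i0} : Finset ι)}] :
    ∑ i : {i // ¬ i ∈ ({i0} : Finset ι)}, f i = ∑ i, f i - f i0 := by
  rw [← Finset.sum_subtype (Finset.univ.erase i0) (p := fun i => ¬ i ∈ ({i0} : Finset ι))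
    (fun x => by simp) f, Finset.sum_erase_eq_sub (Finset.mem_univ i0)]

omit hFr in
/-- The weights in a relation. -/
lemma weight_sum (hq : 1 < q) {ι : Type} [Fintype ι] {α : ι → Qb} {l : ι → ℕ}
    (hl : ∀ i, ∀ τ : Qb →+* ℂ, ‖τ (α i)‖ ^ 2 = (q : ℝ) ^ (l i)) {r : ℤ}
    (hr : ∏ i, α i = (q : Qb) ^ r) : 2 * r = ∑ i, (l i : ℤ) := by
  let τ : Qb →+* ℂ := (IsAlgClosed.lift : Qb →ₐ[ℚ] ℂ).toRingHom
  have h1 : ‖τ (∏ i, α i)‖ ^ 2 = (q : ℝ) ^ (∑ i, l i) := by
    rw [map_prod, norm_prod, ← Finset.prod_pow, Finset.prod_congr rfl fun i _ => hl i τ,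
      Finset.prod_pow_eq_pow_sum]
  rw [hr, map_zpow₀, map_natCast, norm_zpow, Complex.norm_natCast] at h1
  have h3 : (q : ℝ) ^ (r * 2) = (q : ℝ) ^ (((∑ i, l i : ℕ)) : ℤ) := by
    rw [zpow_mul, zpow_natCast, ← h1]
    rfl
  have h4 : (1 : ℝ) < (q : ℝ) := by exact_mod_cast hq
  have h5 := zpow_right_injective₀ (by linarith) h4.ne' h3
  push_cast at h5
  linarith

/-- **Low degrees.** -/
theorem vanish_low (hq : 1 < q) {𝒮 : Set 𝒱.Obj} (hN : ∀ X ∈ 𝒮, Nilpotence H X)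
    (hs : ∀ X ∈ 𝒮, Conn H s X) {T : CorrData C} (hT : IsPure T Fr q) {n : ℕ}
    (hbase : ∀ m, 1 ≤ m → m * s ≤ 2 * n → ∀ Z, IsProdOf 𝒮 m Z → T.gr Z n = ⊥)
    {m : ℕ} (hm : 1 ≤ m) {Z : 𝒱.Obj} (hZ : IsProdOf 𝒮 m Z) : T.gr Z n = ⊥ := by
  classical
  obtain ⟨X, pr, hX, h⟩ := hZ.isProd
  have hne : Nonempty (Fin m) := ⟨⟨0, hm⟩⟩
  refine vanish_letters hT.corr hFr.nat hq hT.power
    (𝒜 := fun _ X r => (∀ i, X i ∈ 𝒮) ∧ r = n) (R := fun X => letters q s X) ?_ ?_
    (Z0 := Z) (hT.zero Z) _ (Fin m) rfl X n ⟨hX, rfl⟩ Z pr h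
  · intro ι _ _ X r hr α hα hrel
    obtain ⟨hX, rfl⟩ := hr
    by_cases hc : Fintype.card ι * s ≤ 2 * n
    · left
      intro Z pr h
      exact hbase _ Fintype.card_pos hc Z (isProdOf_of hX h)
    · right
      choose l hl1 hl2 hl3 hl4 hl5 hl6 using hα
      have h1 := weight_sum hq hl2 hrel
      obtain ⟨i, hi⟩ : ∃ i, l i = 0 := by
        by_contra hcon
        push Not at hcon
        have h2 : ∀ i, s ≤ l i := fun i => (hl5 i).resolve_left (hcon i)
        have h3 : Fintype.card ι * s ≤ ∑ i, l i := by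
          have := Finset.card_nsmul_le_sum Finset.univ l s fun i _ => h2 i
          simpa using this
        have h4 : 2 * n = ∑ i, l i := by exact_mod_cast h1
        omega
      refine ⟨i, 0, ?_, split_zero hFr hq (hN _ (hX i)), fun _ => ⟨fun i' => hX i', ?_⟩⟩
      · rw [hl3 i hi, pow_zero]
      · simp
  · intro ι X r hr i
    exact exists_poly_letters hFr (hN _ (hr.1 i)) (hs _ (hr.1 i))

/-- **High degrees.** -/
theorem vanish_high (hq : 1 < q) {𝒮 : Set 𝒱.Obj} (hN : ∀ X ∈ 𝒮, Nilpotence H X)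
    (hs : ∀ X ∈ 𝒮, Conn H s X) {T : CorrData C} (hT : IsPure T Fr q) {n : ℕ}
    (hbase : ∀ m, 1 ≤ m → m * s ≤ 2 * n → ∀ Z, IsProdOf 𝒮 m Z → T.gr Z (Z.dim - n) = ⊥)
    {m : ℕ} (hm : 1 ≤ m) {Z : 𝒱.Obj} (hZ : IsProdOf 𝒮 m Z) : T.gr Z (Z.dim - n) = ⊥ := by
  classical
  obtain ⟨X, pr, hX, h⟩ := hZ.isProd
  have hne : Nonempty (Fin m) := ⟨⟨0, hm⟩⟩
  refine vanish_letters hT.corr hFr.nat hq hT.power
    (𝒜 := fun ι X r => (∀ i, X i ∈ 𝒮) ∧ ∀ _ : Fintype ι, r = ∑ i, ((X i).dim : ℤ) - n)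
    (R := fun X => letters q s X) ?_ ?_
    (Z0 := Z) (hT.zero Z) _ (Fin m) rfl X (Z.dim - n) ⟨hX, fun _ => ?_⟩ Z pr h
  · intro ι _ _ X r hr α hα hrel
    obtain ⟨hX, hr⟩ := hr
    have hr := hr inferInstance
    by_cases hc : Fintype.card ι * s ≤ 2 * n
    · left
      intro Z pr h
      have h1 := hbase _ Fintype.card_pos hc Z (isProdOf_of hX h)
      rw [dim_isProd (H := H) ι inferInstance X Z pr h] at h1
      rw [hr]
      exact_mod_cast h1
    · right
      choose l hl1 hl2 hl3 hl4 hl5 hl6 using hα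
      have h1 := weight_sum hq hl2 hrel
      obtain ⟨i, hi⟩ : ∃ i, l i = 2 * (X i).dim := by
        by_contra hcon
        push Not at hcon
        have h2 : ∀ i, l i + s ≤ 2 * (X i).dim := fun i => (hl6 i).resolve_left (hcon i)
        have h3 : ∑ i, (l i + s) ≤ ∑ i, 2 * (X i).dim := Finset.sum_le_sum fun i _ => h2 i
        rw [Finset.sum_add_distrib, Finset.sum_const, Finset.card_univ, smul_eq_mul,
          ← Finset.mul_sum] at h3
        rw [hr] at h1
        have h4 : (2 * ∑ i, ((X i).dim : ℤ)) - 2 * n = ∑ i, (l i : ℤ) := by rw [← h1]; ring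
        have h5 : 2 * (∑ i, (X i).dim) = ∑ i, l i + 2 * n := by
          zify
          linarith
        omega
      refine ⟨i, (X i).dim, hl4 i hi, split_top hFr hq (hN _ (hX i)),
        fun _ => ⟨fun i' => hX i', fun _ => ?_⟩⟩
      rw [hr, sum_compl i (fun i' => ((X i').dim : ℤ))]
      ring
  · intro ι X r hr i
    exact exists_poly_letters hFr (hN _ (hr.1 i)) (hs _ (hr.1 i))
  · rw [dim_isProd (H := H) (Fin m) hne X Z pr h]
    rename_i F
    rw [Subsingleton.elim F inferInstance]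
    push_cast
    rfl

end Q187.Par
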