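import Pool.Agent.Q187.Par.Gen
import Pool.Agent.Q187.Par.Defs

/-!
# Splitting off the extreme degrees
-/

set_option autoImplicit false
set_option linter.unusedSectionVars false

open CategoryTheory AlgebraicGeometry

universe u v w

namespace Q187.Par

open Module Polynomial Pool.Agent.H914 Pool.Agent.H914.VarClass Pool.Agent.H914.VarClass.Obj
  Pool.Agent.W492.BB Pool.Agent.W550.Corr Pool.Agent.TH133 Pool.Agent.W484.CH Pool.Agent.Q56.FD
  Pool.Agent.Q56.CP

variable {k : Type u} [Field k] {𝒱 : VarClass k} {C : TheoryData.{u, v, 0} 𝒱 ℚ} {K : Type w}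
  [Field K] [CharZero K] {H : WeilTheoryData.{u, v, w} C K} [hC : IsChowProj C]
  [hH : IsWeilProj H] {X Y : 𝒱.Obj}

section

variable {f : X ⟶ X} {q : ℕ}

/-- **Splittings.** -/
theorem split_at [Module.Finite K (H.A X)] (hq : 1 < q) (hf : IsFrobenius C f q)
    (hW : Weights H f q) (hN : Nilpotence H X) {χ : ℚ[X]} (hχ0 : χ ≠ 0)
    (hχ : aeval (hF H f) (χ.map (algebraMap ℚ K)) = 0) {j : ℕ} (hj : j ≤ X.dim)
    (hT : StrongTateAt H f q j) (hT' : StrongTateAt H f q (X.dim - j)) :
    Split C f q j := by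
  obtain ⟨m, D, E, hD, hE, hDE, hspan⟩ := exists_dual hq hf hW hj hT'
  obtain ⟨P, hP, hPn⟩ :=
    Polynomial.exists_eq_pow_rootMultiplicity_mul_and_not_dvd χ hχ0 ((q : ℚ) ^ j)
  refine ⟨m, D, E, hD, hE, P, ?_, ?_⟩
  · intro h
    exact hPn (Polynomial.dvd_iff_isRoot.2 h)
  · apply nilp_of_act hN
    · exact mul_mem (sub_mem (one_mem _) (projE_mem hD hE)) (aeval_fr_mem f P)
    · rw [map_mul, map_sub, map_one]
      refine LinearMap.ext fun w => ?_
      rw [Module.End.mul_apply, LinearMap.sub_apply, Module.End.one_apply, LinearMap.zero_apply,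
        actH_aeval]
      have h1 : aeval (hF H f) ((Polynomial.X - Polynomial.C ((q : K) ^ j)) ^
          (rootMultiplicity ((q : ℚ) ^ j) χ) * P.map (algebraMap ℚ K)) = 0 := by
        have h2 := hχ
        rw [hP, Polynomial.map_mul, Polynomial.map_pow, Polynomial.map_sub, Polynomial.map_X,
          Polynomial.map_C, map_pow, map_natCast] at h2
        exact h2
      have h4 := ker_of_factor h1 w
      have h5 := hspan (strong_span hq hW hT h4)
      rw [actH_projE hDE h5, sub_self]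

lemma mem_aSpan_zero {x : H.A X} (hx : x ∈ H.gr X 0) : x ∈ aSpan H X 0 := by
  obtain ⟨c, hc⟩ := hH.gr_zero X x hx
  rw [hc]
  refine Submodule.smul_mem _ _ (Submodule.subset_span ⟨1, ?_, ?_⟩)
  · exact_mod_cast C.one_mem X
  · rw [map_one]

lemma tr_pt_ne {a : C.A X} (ha : a ∈ C.gr X X.dim)
    (ha1 : ∀ Z : 𝒱.Obj, C.push (fst Z X) (C.pull (snd Z X) a) = 1) : H.tr X (H.cl a) ≠ 0 := by
  intro h2
  apply hH.one_ne_zero X
  apply H.nondeg
  intro b
  rw [one_mul]
  refine homog_induction H.toTheoryData (p := fun b => H.tr X b = 0) ?_ ?_ b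
  · intro i b hb
    by_cases hi : i = 2 * X.dim
    · have h4 : H.tr (X.prod X) (H.pull (fst X X) b * H.pull (snd X X) (H.cl a)) = H.tr X b := by
        rw [tr_fst, ← H.cl_pull, ← H.cl_push, ha1 X, map_one, mul_one]
      have h5 := H.push_mem (snd X X) (H.pull_mem (fst X X) hb)
      have h6 : i + 2 * ((X.dim : ℤ) - (X.prod X).dim) = 0 := by
        rw [Obj.dim_prod]
        push_cast
        rw [hi]
        ring
      rw [h6] at h5
      obtain ⟨c', hc'⟩ := hH.gr_zero X _ h5
      rw [← h4, tr_snd, hc', smul_mul_assoc, one_mul, map_smul, h2, smul_zero]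
    · exact tr_zero H hb hi
  · intro a b ha hb
    rw [map_add, ha, hb, add_zero]

/-- The top degree is spanned by the class of a point. -/
lemma top_eq {a : C.A X} (ha : a ∈ C.gr X X.dim)
    (ha1 : ∀ Z : 𝒱.Obj, C.push (fst Z X) (C.pull (snd Z X) a) = 1) {x : H.A X}
    (hx : x ∈ H.gr X (2 * X.dim)) : ∃ c : K, x = c • H.cl a := by
  have hne := tr_pt_ne (H := H) ha ha1
  refine ⟨H.tr X x / H.tr X (H.cl a), ?_⟩
  have hcl : H.cl a ∈ H.gr X (2 * X.dim) := H.cl_mem ha
  set y := x - (H.tr X x / H.tr X (H.cl a)) • H.cl a with hy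
  have hym : y ∈ H.gr X (2 * X.dim) := Submodule.sub_mem _ hx (Submodule.smul_mem _ _ hcl)
  have htry : H.tr X y = 0 := by
    rw [hy, map_sub, map_smul, smul_eq_mul, div_mul_cancel₀ _ hne, sub_self]
  have h0 : y = 0 := by
    apply H.nondeg
    intro b
    refine homog_induction H.toTheoryData (p := fun b => H.tr X (y * b) = 0) ?_ ?_ b
    · intro i b hb
      by_cases hi : i = 0
      · subst hi
        obtain ⟨c, hc⟩ := hH.gr_zero X b hb
        rw [hc, mul_smul_comm, mul_one, map_smul, htry, smul_zero]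
      · exact tr_zero H (H.mul_mem hym hb) (by omega)
    · intro a b ha hb
      rw [mul_add, map_add, ha, hb, add_zero]
  rw [hy] at h0
  exact sub_eq_zero.1 h0

lemma mem_aSpan_top {x : H.A X} (hx : x ∈ H.gr X (2 * X.dim)) : x ∈ aSpan H X X.dim := by
  obtain ⟨a, ha, ha1, -⟩ := exists_deg_one C X
  obtain ⟨c, hc⟩ := top_eq ha ha1 hx
  rw [hc]
  exact Submodule.smul_mem _ _ (Submodule.subset_span ⟨a, ha, rfl⟩)

lemma tate_zero : StrongTateAt H f q 0 := fun x hx _ => mem_aSpan_zero (by simpa using hx)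

lemma tate_top : StrongTateAt H f q X.dim := fun x hx _ => mem_aSpan_top hx

end

/-! ### The Frobenius endomorphisms -/

namespace IsFrob

variable {Fr : ∀ X : 𝒱.Obj, X ⟶ X} {q : ℕ} (hFr : IsFrob H Fr q)

include hFr

lemma frobenius (X : 𝒱.Obj) : IsFrobenius C (Fr X) q := ⟨hFr.chow X, hFr.degree X⟩

lemma fam : IsFrobFamily C Fr q := ⟨hFr.nat, hFr.frobenius⟩

lemma weights (X : 𝒱.Obj) : Weights H (Fr X) q := hFr.weil X

/-- The polynomials annihilating the Frobenius endomorphism, with the obvious ones in the extreme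
degrees. -/
lemma exists_polys (X : 𝒱.Obj) : ∃ Q : ℕ → ℤ[X], (∀ i, Q i ≠ 0) ∧
    (∀ i : ℕ, ∀ x ∈ H.gr X i, aeval (hF H (Fr X)) (Q i) x = 0) ∧
    (∀ i, ∀ z : ℂ, aeval z (Q i) = 0 → ‖z‖ ^ 2 = (q : ℝ) ^ i) ∧
    Q 0 = Polynomial.X - 1 ∧ Q (2 * X.dim) = Polynomial.X - Polynomial.C ((q : ℤ) ^ X.dim) := by
  choose P hP0 hPw hPk using hFr.weil X
  refine ⟨fun i => if i = 2 * X.dim then Polynomial.X - Polynomial.C ((q : ℤ) ^ X.dim)
    else if i = 0 then Polynomial.X - 1 else P i, fun i => ?_, fun i x hx => ?_,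
    fun i z hz => ?_, ?_, ?_⟩
  · dsimp only
    split_ifs
    · exact Polynomial.X_sub_C_ne_zero _
    · exact Polynomial.X_sub_C_ne_zero (1 : ℤ)
    · exact hP0 i
  · dsimp only
    split_ifs with h1 h2
    · subst h1
      obtain ⟨a, ha, ha1, -⟩ := exists_deg_one C X
      obtain ⟨c, hc⟩ := top_eq (H := H) ha ha1 (by exact_mod_cast hx)
      have h3 : hF H (Fr X) x = ((q : K) ^ X.dim) • x := by
        have h4 : H.cl a ∈ aSpan H X X.dim := Submodule.subset_span ⟨a, ha, rfl⟩
        rw [hc, map_smul, aSpan_eigen (frobenius hFr X) h4, smul_comm]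
      rw [map_sub, aeval_X, LinearMap.sub_apply, h3, map_pow, map_natCast, map_pow, map_natCast,
        sub_eq_zero]
      have h5 : ((q : Module.End K (H.A X)) ^ X.dim) = (((q ^ X.dim : ℕ) : Module.End K (H.A X))) := by
        push_cast
        rfl
      rw [h5, Module.End.natCast_apply, ← Nat.cast_smul_eq_nsmul K]
      push_cast
      rfl
    · subst h2
      obtain ⟨c, hc⟩ := hH.gr_zero X x (by exact_mod_cast hx)
      rw [map_sub, aeval_X, map_one, LinearMap.sub_apply, Module.End.one_apply, hc, map_smul,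
        hF_apply, map_one, sub_self]
    · exact hPk i x hx
  · dsimp only at hz
    split_ifs at hz with h1 h2
    · rw [map_sub, aeval_X, aeval_C, sub_eq_zero] at hz
      rw [hz, h1, map_pow, map_natCast, norm_pow, Complex.norm_natCast, ← pow_mul, mul_comm]
    · rw [map_sub, aeval_X, map_one, sub_eq_zero] at hz
      rw [hz, h2]
      simp
    · exact hPw i z hz
  · dsimp only
    split_ifs with h1 h3
    · have h2 : X.dim = 0 := by omega
      rw [h2, pow_zero, map_one]
    · rfl
    · exact absurd rfl h3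
  · dsimp only
    rw [if_pos rfl]

end IsFrob

end Q187.Par
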