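import Pool.Agent.Q187.Par.Split

/-!
# Twisted direct factors and products
-/

set_option autoImplicit false
set_option linter.unusedSectionVars false

open CategoryTheory AlgebraicGeometry

universe u v w

namespace Q187.Par

open Module Polynomial Pool.Agent.H914 Pool.Agent.H914.VarClass Pool.Agent.H914.VarClass.Obj
  Pool.Agent.W492.BB Pool.Agent.W550.Corr Pool.Agent.TH133 Pool.Agent.W484.CH Pool.Agent.Q56.FD
  Pool.Agent.Q56.CP

variable {k : Type u} [Field k] {𝒱 : VarClass k} {C : TheoryData.{u, v, 0} 𝒱 ℚ} {K : Type w}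
  [Field K] [CharZero K] {H : WeilTheoryData.{u, v, w} C K}

/-- The Chow motive of `Z`, twisted by `a`, is a direct factor of the Chow motive of `W`. -/
def TwFactor (C : TheoryData.{u, v, 0} 𝒱 ℚ) (a : ℤ) (Z W : 𝒱.Obj) : Prop :=
  ∃ (Q : C.A (Z.prod W)) (P : C.A (W.prod Z)), C.Deg (Z.dim + a) Q ∧ C.Deg (W.dim + -a) P ∧
    C.comp Q P = C.graph (𝟙 Z)

variable [hC : IsChowProj C] {X Y Z W V A : 𝒱.Obj}

lemma TwFactor.vanish {T : CorrData C} (hT : IsCorrTheory T) {a : ℤ} (h : TwFactor C a Z W)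
    {i : ℤ} (h0 : T.gr W (i + a) = ⊥) : T.gr Z i = ⊥ := by
  obtain ⟨Q, P, hQ, hP, hQP⟩ := h
  rw [eq_bot_iff]
  intro z hz
  have h1 : T.act Q z ∈ T.gr W (i + a) := hT.act_mem hQ hz
  rw [h0, Submodule.mem_bot] at h1
  have h2 := hT.act_comp Q P z
  rw [h1, map_zero, hQP] at h2
  rw [Submodule.mem_bot, ← h2]
  exact (hT.act_id z).symm

lemma TwFactor.refl (Z : 𝒱.Obj) : TwFactor C 0 Z Z :=
  ⟨dg C Z, dg C Z, by rw [add_zero]; exact dg_mem C Z, by rw [neg_zero, add_zero]; exact dg_mem C Z,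
    comp_dg C _⟩

lemma TwFactor.of_iso {f : Z ⟶ W} {g : W ⟶ Z} (h : f ≫ g = 𝟙 Z) : TwFactor C 0 Z W := by
  refine ⟨C.cograph g, C.cograph f, ?_, ?_, ?_⟩
  · rw [add_zero]; exact Pool.Agent.W484.CH.cograph_mem g
  · rw [neg_zero, add_zero]; exact Pool.Agent.W484.CH.cograph_mem f
  · rw [cograph_comp, h]
    rfl

lemma TwFactor.trans {a b : ℤ} (h : TwFactor C a Z W) (h' : TwFactor C b W V) :
    TwFactor C (a + b) Z V := by
  obtain ⟨Q, P, hQ, hP, hQP⟩ := h
  obtain ⟨Q', P', hQ', hP', hQP'⟩ := h'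
  refine ⟨C.comp Q Q', C.comp P' P, comp_mem C hQ hQ', ?_, ?_⟩
  · have h1 := comp_mem C hP' hP
    have h2 : -b + -a = -(a + b) := by ring
    rwa [h2] at h1
  · rw [Pool.Agent.W550.Corr.comp_assoc, ← Pool.Agent.W550.Corr.comp_assoc C Q' P' P, hQP']
    have h1 : C.comp (C.graph (𝟙 W)) P = P := dg_comp C P
    rw [h1, hQP]

section weil

variable [hH : IsWeilProj H]

include H hH in
lemma chow_one_ne (X : 𝒱.Obj) : (1 : C.A X) ≠ 0 := by
  intro h0
  have h2 := congrArg (H.cl (X := X)) h0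
  rw [map_one, map_zero] at h2
  exact hH.one_ne_zero X h2

include H hH in
/-- Powers of a polarization. -/
lemma twFactor_prod (A Z : 𝒱.Obj) {e : ℕ} (he : e ≤ A.dim) : TwFactor C e Z (A.prod Z) := by
  obtain ⟨h, h1, q, hq, hdeg⟩ := hC.polarized A
  have hpow : ∀ n : ℕ, h ^ n ∈ C.gr A n := by
    intro n
    induction n with
    | zero => rw [pow_zero]; exact_mod_cast C.one_mem A
    | succ n ih =>
      rw [pow_succ]
      have := C.mul_mem ih h1
      exact_mod_cast this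
  obtain ⟨q', hq'⟩ := hC.degree A (h ^ A.dim) (hpow _)
  have hqq : q' = q := by
    have h3 := (hq' A).1
    rw [hdeg] at h3
    have h4 : (q' - q) • (1 : C.A A) = 0 := by
      rw [sub_smul, ← h3, sub_self]
    exact sub_eq_zero.1 ((smul_eq_zero.1 h4).resolve_right (chow_one_ne (H := H) A))
  subst hqq
  refine ⟨extBy C Z (h ^ e), pairBy C Z (q'⁻¹ • h ^ (A.dim - e)), ?_, ?_, ?_⟩
  · exact extBy_mem (hpow e)
  · apply pairBy_mem
    apply Submodule.smul_mem
    have h5 : (A.dim : ℤ) - e = ((A.dim - e : ℕ) : ℤ) := by omega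
    rw [h5]
    exact hpow _
  · rw [comp_extBy_pairBy C _ _ (chow_mul_comm _ _) 1, one_smul]
    · rfl
    · rw [mul_smul_comm, ← pow_add, Nat.add_sub_cancel' he, map_smul, map_smul]
      have h6 := (hq' Z).1
      change C.push (snd A Z) (C.pull (fst A Z) (h ^ A.dim)) = _ at h6
      rw [h6, smul_smul, inv_mul_cancel₀ hq]

include H hH in
lemma twFactor_prod' (A Z : 𝒱.Obj) {e : ℕ} (he : e ≤ A.dim) : TwFactor C e Z (Z.prod A) := by
  have h1 := (twFactor_prod (H := H) A Z he).trans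
    (TwFactor.of_iso (C := C) (f := sw A Z) (g := sw Z A) sw_sw)
  rwa [add_zero] at h1

include H hH in
/-- Isomorphic varieties have the same dimension. -/
lemma dim_eq {f : Z ⟶ W} {g : W ⟶ Z} (h : f ≫ g = 𝟙 Z) (h' : g ≫ f = 𝟙 W) : Z.dim = W.dim := by
  have key : ∀ {Z W : 𝒱.Obj} {f : Z ⟶ W} {g : W ⟶ Z}, f ≫ g = 𝟙 Z → Z.dim ≤ W.dim := by
    intro Z W f g h
    by_contra hlt
    have h1 := C.push_mem f (C.one_mem Z)
    rw [C.gr_neg W _ (by omega), Submodule.mem_bot] at h1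
    have h2 := C.push_comp f g (1 : C.A Z)
    rw [h, C.push_id, h1, map_zero] at h2
    exact chow_one_ne (H := H) Z h2
  exact le_antisymm (key h) (key h')

include H hH in
/-- The dimension of a product. -/
lemma dim_isProd (ι : Type) [Fintype ι] : ∀ (_ : Nonempty ι) (X : ι → 𝒱.Obj) (Z : 𝒱.Obj)
    (pr : ∀ i, Z ⟶ X i), IsProd X Z pr → Z.dim = ∑ i, (X i).dim := by
  classical
  refine Fintype.induction_empty_option (P := fun ι _ => ∀ (_ : Nonempty ι) (X : ι → 𝒱.Obj)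
    (Z : 𝒱.Obj) (pr : ∀ i, Z ⟶ X i), IsProd X Z pr → Z.dim = ∑ i, (X i).dim) ?_ ?_ ?_ ι
  · intro α β _ e ih hβ X Z pr h
    let _ : Fintype α := Fintype.ofEquiv β e.symm
    have h1 := ih (e.nonempty_congr.2 hβ) _ Z _ (h.reindex e)
    rw [h1]
    exact Fintype.sum_equiv e _ _ fun i => rfl
  · intro h
    exact absurd h (by simp)
  · intro α _ ih _ X Z pr h
    rw [Fintype.sum_option]
    by_cases hα : Nonempty α
    · obtain ⟨Z', pr', h'⟩ := IsProd.exists_prod α hα fun i => X (some i)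
      have h2 := ih hα _ Z' pr' h'
      obtain ⟨f, g, h3, h4, -⟩ := h.iso (IsProd.option h')
      rw [dim_eq (H := H) h3 h4, dim_prod, h2, add_comm]
    · have hemp : IsEmpty α := not_nonempty_iff.1 hα
      rw [Finset.univ_eq_empty, Finset.sum_empty, add_zero]
      obtain ⟨g, hg⟩ := h.lift (W := X none) fun i => match i with
        | none => 𝟙 _
        | some i => (hemp.false i).elim
      refine dim_eq (H := H) (f := pr none) (g := g) ?_ (hg none)
      apply h.ext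
      intro i
      rcases i with _ | i
      · rw [Category.assoc, hg none, Category.id_comp]
        exact Category.comp_id _
      · exact (hemp.false i).elim

end weil

/-! ### Products of members of a family -/

variable {𝒮 : Set 𝒱.Obj}

omit hC in
lemma isProdOf_of {ι : Type} [Fintype ι] {X : ι → 𝒱.Obj} (hX : ∀ i, X i ∈ 𝒮) {Z : 𝒱.Obj}
    {pr : ∀ i, Z ⟶ X i} (h : IsProd X Z pr) : IsProdOf 𝒮 (Fintype.card ι) Z := by
  let e : Fin (Fintype.card ι) ≃ ι := (Fintype.equivFin ι).symm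
  have h1 := h.reindex e
  refine ⟨fun i => X (e i), fun i => pr (e i), fun i => hX _, fun W f => ?_⟩
  obtain ⟨g, hg⟩ := h1.lift f
  exact ⟨g, hg, fun g' hg' => h1.ext fun i => by rw [hg', hg]⟩

omit hC in
lemma IsProdOf.isProd {m : ℕ} {Z : 𝒱.Obj} (h : IsProdOf 𝒮 m Z) :
    ∃ (X : Fin m → 𝒱.Obj) (pr : ∀ i, Z ⟶ X i), (∀ i, X i ∈ 𝒮) ∧ IsProd X Z pr := by
  obtain ⟨X, pr, hX, h⟩ := h
  refine ⟨X, pr, hX, fun f => ?_, fun {W g g'} hh => ?_⟩
  · obtain ⟨g, hg, -⟩ := h _ f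
    exact ⟨g, hg⟩
  · obtain ⟨g0, -, h0⟩ := h W fun i => g' ≫ pr i
    rw [h0 g hh, h0 g' fun i => rfl]

omit hC in
lemma IsProdOf.succ {m : ℕ} {Z X : 𝒱.Obj} (h : IsProdOf 𝒮 m Z) (hX : X ∈ 𝒮) :
    IsProdOf 𝒮 (m + 1) (Z.prod X) := by
  obtain ⟨Y, pr, hY, h⟩ := h.isProd
  have h1 := IsProd.option (X := fun o : Option (Fin m) => o.elim X Y) h
  have h2 := isProdOf_of (𝒮 := 𝒮) (fun i => by
    rcases i with _ | i
    · exact hX
    · exact hY i) h1
  rw [Fintype.card_option, Fintype.card_fin] at h2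
  exact h2

/-- Adding factors. -/
lemma exists_pad [hH : IsWeilProj H] {X : 𝒱.Obj} (hX : X ∈ 𝒮) {m : ℕ} {Z : 𝒱.Obj}
    (h : IsProdOf 𝒮 m Z) (t : ℕ) : ∃ Z' : 𝒱.Obj, IsProdOf 𝒮 (m + t) Z' ∧
      Z'.dim = Z.dim + t * X.dim ∧ ∀ e : ℕ, e ≤ t * X.dim → TwFactor C e Z Z' := by
  induction t with
  | zero =>
    refine ⟨Z, h, by simp, fun e he => ?_⟩
    obtain rfl : e = 0 := by simpa using he
    exact_mod_cast TwFactor.refl Z
  | succ t ih =>
    obtain ⟨Z', h1, h2, h3⟩ := ih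
    refine ⟨Z'.prod X, h1.succ hX, ?_, fun e he => ?_⟩
    · rw [dim_prod, h2]; ring
    · obtain ⟨e1, e2, he1, he2, rfl⟩ : ∃ e1 e2 : ℕ, e1 ≤ t * X.dim ∧ e2 ≤ X.dim ∧ e = e1 + e2 := by
        have h4 : (t + 1) * X.dim = t * X.dim + X.dim := by ring
        exact ⟨min e (t * X.dim), e - min e (t * X.dim), by omega, by omega, by omega⟩
      have h5 := (h3 e1 he1).trans (twFactor_prod' (H := H) X Z' he2)
      exact_mod_cast h5

end Q187.Par
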